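import Pool.Agent.N113.LP.Core

/-!
# Relations with algebraic coefficients of growing degree and height
-/

set_option autoImplicit false

namespace Pool.Agent.N113.LP

open MvPolynomial

variable {σ : Type}

/-- relations with integral polynomials and given constants hold on `S` -/
def Rel (x : σ → ℂ) (S : Set (σ → ℂ)) (k : ℕ) (ξ : Fin k → ℂ) (H : ℝ) : Prop :=
  ∀ P : Fin k → MvPolynomial σ ℤ, (∀ b, (P b).totalDegree ≤ k) →
    (∀ b s, |(((P b).coeff s : ℤ) : ℝ)| ≤ H) → ∑ b, ξ b * aeval x (P b) = 0 →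
    ∀ y ∈ S, ∑ b, ξ b * aeval y (P b) = 0

/-- arbitrary index sets -/
theorem exists_xi {κ : Type} [Fintype κ] {k : ℕ} (hκ : Fintype.card κ ≤ k) (v : κ → ℂ) :
    ∃ ξ : Fin k → ℂ, ∀ (x : σ → ℂ) (S : Set (σ → ℂ)) (H : ℝ), 0 ≤ H → Rel x S k ξ H →
      ∀ P : κ → MvPolynomial σ ℤ, (∀ b, (P b).totalDegree ≤ k) →
        (∀ b s, |(((P b).coeff s : ℤ) : ℝ)| ≤ H) → ∑ b, v b * aeval x (P b) = 0 →
        ∀ y ∈ S, ∑ b, v b * aeval y (P b) = 0 := by
  classical
  obtain ⟨f⟩ : Nonempty (κ ↪ Fin k) := Function.Embedding.nonempty_of_card_le (by simpa using hκ)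
  refine ⟨Function.extend f v 0, fun x S H hH hrel P hd hc h0 y hy => ?_⟩
  have key : ∀ w : σ → ℂ, ∑ b, Function.extend f v 0 b * aeval w (Function.extend f P 0 b) =
      ∑ b, v b * aeval w (P b) := by
    intro w
    rw [← Finset.sum_subset (Finset.subset_univ (Finset.univ.map f))]
    · rw [Finset.sum_map]
      refine Finset.sum_congr rfl fun b _ => ?_
      rw [f.injective.extend_apply, f.injective.extend_apply]
    · intro b _ hb
      rw [Function.extend_apply' _ _ _ (by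
        rintro ⟨a, ha⟩
        exact hb (Finset.mem_map.2 ⟨a, Finset.mem_univ _, ha⟩))]
      simp
  have hP : ∀ b, (∃ a, f a = b ∧ Function.extend f P 0 b = P a) ∨ Function.extend f P 0 b = 0 := by
    intro b
    by_cases hb : ∃ a, f a = b
    · obtain ⟨a, rfl⟩ := hb
      exact Or.inl ⟨a, rfl, f.injective.extend_apply _ _ _⟩
    · exact Or.inr (Function.extend_apply' _ _ _ hb)
  have h1 := hrel (Function.extend f P 0) (fun b => by
    rcases hP b with ⟨a, -, h⟩ | h
    · rw [h]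
      exact hd a
    · rw [h, totalDegree_zero]
      exact Nat.zero_le _) (fun b s => by
    rcases hP b with ⟨a, -, h⟩ | h
    · rw [h]
      exact hc a s
    · rw [h, coeff_zero]
      simpa using hH) (by rw [key]; exact h0) y hy
  rwa [key] at h1

/-- `x` is a combination of `β 0, …, β (k - 1)` with integral coefficients of absolute value at most `H` -/
def Combination (β : ℕ → ℂ) (k : ℕ) (H : ℝ) (x : ℂ) : Prop :=
  ∃ c : ℕ → ℤ, (∀ b, |(c b : ℝ)| ≤ H) ∧ x = ∑ b ∈ Finset.range k, (c b : ℂ) * β b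

/-- polynomials of total degree at most `k` whose coefficients are such combinations -/
def Simple (β : ℕ → ℂ) (k : ℕ) (H : ℝ) (R : MvPolynomial σ ℂ) : Prop :=
  R.totalDegree ≤ k ∧ ∀ s, Combination β k H (R.coeff s)

theorem Simple.zero {β : ℕ → ℂ} {k : ℕ} {H : ℝ} (hH : 0 ≤ H) : Simple β k H (0 : MvPolynomial σ ℂ) :=
  ⟨by rw [totalDegree_zero]; exact Nat.zero_le _, fun s => ⟨0, by simpa using hH, by simp⟩⟩

theorem Simple.neg {β : ℕ → ℂ} {k : ℕ} {H : ℝ} {R : MvPolynomial σ ℂ} (h : Simple β k H R) :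
    Simple β k H (-R) := by
  refine ⟨by rw [totalDegree_neg]; exact h.1, fun s => ?_⟩
  obtain ⟨c, h1, h2⟩ := h.2 s
  refine ⟨fun b => -c b, fun b => by push_cast; rw [abs_neg]; exact h1 b, ?_⟩
  rw [coeff_neg, h2, ← Finset.sum_neg_distrib]
  refine Finset.sum_congr rfl fun b _ => ?_
  push_cast
  ring

theorem Simple.const {β : ℕ → ℂ} {k : ℕ} {H : ℝ} (hH : 0 ≤ H) {q : ℂ} (h : Combination β k H q) :
    Simple β k H (C q : MvPolynomial σ ℂ) := by
  classical
  refine ⟨by rw [totalDegree_C]; exact Nat.zero_le _, fun s => ?_⟩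
  rw [coeff_C]
  split_ifs
  · exact h
  · exact ⟨0, by simpa using hH, by simp⟩

theorem Simple.over {β : ℕ → ℂ} (hβ : ∀ b, IsAlgebraic ℚ (β b)) {k : ℕ} {H : ℝ} {R : MvPolynomial σ ℂ}
    (h : Simple β k H R) : Over Qb R := by
  intro s
  obtain ⟨c, -, h2⟩ := h.2 s
  rw [h2]
  exact Qb.sum_mem fun b _ => Qb.mul_mem (intCast_mem _ _) (mem_Qb.2 (hβ b))

/-- the integral polynomials -/
theorem Simple.int {β : ℕ → ℂ} {k : ℕ} {H : ℝ} (hH : 0 ≤ H) {R : MvPolynomial σ ℂ} (h : Simple β k H R) :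
    ∃ P : Fin k → MvPolynomial σ ℤ, (∀ b, (P b).totalDegree ≤ k) ∧
      (∀ b s, |(((P b).coeff s : ℤ) : ℝ)| ≤ H) ∧ ∀ y : σ → ℂ, ∑ b : Fin k, β b * aeval y (P b) = eval y R := by
  classical
  choose c hc1 hc2 using h.2
  refine ⟨fun b => ∑ s ∈ R.support, monomial s (c s b), fun b => ?_, fun b s => ?_, fun y => ?_⟩
  · refine (totalDegree_finsetSum _ _).trans (Finset.sup_le fun s hs => ?_)
    refine (totalDegree_monomial_le _ _).trans ?_
    refine le_trans ?_ h.1
    exact le_totalDegree hs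
  · rw [coeff_sum]
    simp only [coeff_monomial]
    rw [Finset.sum_ite_eq']
    split_ifs
    · exact hc1 s b
    · simpa using hH
  · simp only [map_sum, aeval_monomial, Finset.mul_sum]
    rw [Finset.sum_comm, eval_eq]
    refine Finset.sum_congr rfl fun s _ => ?_
    rw [hc2 s, Finset.sum_range, Finset.sum_mul]
    refine Finset.sum_congr rfl fun b _ => ?_
    have h1 : (algebraMap ℤ ℂ) (c s b) = (c s b : ℂ) := rfl
    rw [h1, Finsupp.prod]
    ring

/-- the size of the index set -/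
theorem card_le {k m : ℕ} (h : m = 0 ∨ (m + 1) ^ 3 ≤ k) :
    Fintype.card (Fin m × Fin (m + 2) × Fin m) ≤ k := by
  rw [Fintype.card_prod, Fintype.card_prod, Fintype.card_fin, Fintype.card_fin]
  rcases h with h | h
  · subst h
    simp
  · refine le_trans ?_ h
    nlinarith

/-- all relations between the numbers `z i ^ l` over the simple polynomials hold on `S` -/
def Good (x : σ → ℂ) (S : Set (σ → ℂ)) (m : ℕ) (H : ℝ) (z β : ℕ → ℂ) : Prop :=
  ∀ R : ℕ → ℕ → MvPolynomial σ ℂ, (∀ i l, Simple β m H (R i l)) →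
    ∑ i ∈ Finset.range m, ∑ l ∈ Finset.range (m + 2), eval x (R i l) * z i ^ l = 0 →
    ∀ y ∈ S, ∑ i ∈ Finset.range m, ∑ l ∈ Finset.range (m + 2), eval y (R i l) * z i ^ l = 0

theorem exists_xi' {k m : ℕ} (h : m = 0 ∨ (m + 1) ^ 3 ≤ k) (z β : ℕ → ℂ) :
    ∃ ξ : Fin k → ℂ, ∀ (x : σ → ℂ) (S : Set (σ → ℂ)) (T : ℝ), 1 ≤ T → Rel x S k ξ (T ^ k) →
      Good x S m (T ^ m) z β := by
  classical
  have hmk : m ≤ k := by
    rcases h with h | h
    · omega
    · nlinarith [Nat.zero_le (m ^ 3), Nat.zero_le (m ^ 2)]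
  obtain ⟨ξ, hξ⟩ := exists_xi (σ := σ) (card_le h)
    (fun p : Fin m × Fin (m + 2) × Fin m => z p.1 ^ (p.2.1 : ℕ) * β p.2.2)
  refine ⟨ξ, fun x S T hT hrel R hR h0 y hy => ?_⟩
  have hH : (0 : ℝ) ≤ T ^ m := by positivity
  have hTT : T ^ m ≤ T ^ k := pow_le_pow_right₀ hT hmk
  choose P hP1 hP2 hP3 using fun i l => (hR i l).int hH
  have key : ∀ w : σ → ℂ, ∑ p : Fin m × Fin (m + 2) × Fin m, z p.1 ^ (p.2.1 : ℕ) * β p.2.2 *
      aeval w (P p.1 p.2.1 p.2.2) =
      ∑ i ∈ Finset.range m, ∑ l ∈ Finset.range (m + 2), eval w (R i l) * z i ^ l := by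
    intro w
    rw [Fintype.sum_prod_type, Finset.sum_range]
    refine Finset.sum_congr rfl fun i _ => ?_
    rw [Fintype.sum_prod_type, Finset.sum_range]
    refine Finset.sum_congr rfl fun l _ => ?_
    rw [← hP3, Finset.sum_mul]
    refine Finset.sum_congr rfl fun b _ => ?_
    ring
  have h1 := hξ x S (T ^ k) (by positivity) hrel (fun p => P p.1 p.2.1 p.2.2)
    (fun p => (hP1 _ _ _).trans hmk) (fun p s => (hP2 _ _ _ s).trans hTT) (by rw [key]; exact h0) y hy
  rwa [key] at h1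


/-- one number: polynomials in `z i` -/
theorem Good.one {x : σ → ℂ} {S : Set (σ → ℂ)} {m : ℕ} {H : ℝ} {z β : ℕ → ℂ} (h : Good x S m H z β)
    (hH : 0 ≤ H) {i : ℕ} (hi : i < m) (A : ℕ → MvPolynomial σ ℂ) (hA : ∀ l, Simple β m H (A l))
    {n : ℕ} (hn : n ≤ m + 2) (h0 : ∑ l ∈ Finset.range n, eval x (A l) * z i ^ l = 0) :
    ∀ y ∈ S, ∑ l ∈ Finset.range n, eval y (A l) * z i ^ l = 0 := by
  classical
  have key : ∀ w : σ → ℂ, ∑ j ∈ Finset.range m, ∑ l ∈ Finset.range (m + 2),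
      eval w (if j = i ∧ l < n then A l else 0) * z j ^ l =
      ∑ l ∈ Finset.range n, eval w (A l) * z i ^ l := by
    intro w
    rw [Finset.sum_eq_single_of_mem i (Finset.mem_range.2 hi)]
    · rw [← Finset.sum_subset (Finset.range_subset_range.2 hn)]
      · refine Finset.sum_congr rfl fun l hl => ?_
        rw [if_pos ⟨rfl, Finset.mem_range.1 hl⟩]
      · intro l _ hl
        rw [if_neg (fun h => hl (Finset.mem_range.2 h.2))]
        simp
    · intro j _ hj
      refine Finset.sum_eq_zero fun l _ => ?_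
      rw [if_neg (fun h => hj h.1)]
      simp
  intro y hy
  have h1 := h (fun j l => if j = i ∧ l < n then A l else 0) (fun j l => by
    split_ifs
    · exact hA l
    · exact Simple.zero hH) (by rw [key]; exact h0) y hy
  rwa [key] at h1

/-- linear forms in the `z i` -/
theorem Good.lin {x : σ → ℂ} {S : Set (σ → ℂ)} {m : ℕ} {H : ℝ} {z β : ℕ → ℂ} (h : Good x S m H z β)
    (hH : 0 ≤ H) (A : ℕ → MvPolynomial σ ℂ) (hA : ∀ l, Simple β m H (A l))
    (h0 : ∑ i ∈ Finset.range m, eval x (A i) * z i = 0) :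
    ∀ y ∈ S, ∑ i ∈ Finset.range m, eval y (A i) * z i = 0 := by
  classical
  have key : ∀ w : σ → ℂ, ∑ j ∈ Finset.range m, ∑ l ∈ Finset.range (m + 2),
      eval w (if l = 1 then A j else 0) * z j ^ l =
      ∑ i ∈ Finset.range m, eval w (A i) * z i := by
    intro w
    refine Finset.sum_congr rfl fun j _ => ?_
    rw [Finset.sum_eq_single_of_mem 1 (Finset.mem_range.2 (by omega))]
    · rw [if_pos rfl, pow_one]
    · intro l _ hl
      rw [if_neg hl]
      simp
  intro y hy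
  have h1 := h (fun j l => if l = 1 then A j else 0) (fun j l => by
    split_ifs
    · exact hA j
    · exact Simple.zero hH) (by rw [key]; exact h0) y hy
  rwa [key] at h1

/-- the value of one polynomial -/
theorem Good.val {x : σ → ℂ} {S : Set (σ → ℂ)} {m : ℕ} {H : ℝ} {z β : ℕ → ℂ} (h : Good x S m H z β)
    (hH : 0 ≤ H) {i : ℕ} (hi : i < m) {q : ℂ} (hq : Combination β m H q) (hq0 : q ≠ 0)
    {R : MvPolynomial σ ℂ} (hR : Simple β m H R) (h0 : q * z i = eval x R) :
    ∀ y ∈ S, z i = eval y (C q⁻¹ * R) := by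
  intro y hy
  have h1 := h.one hH hi (fun l => if l = 1 then C q else if l = 0 then -R else 0) (fun l => by
    split_ifs
    · exact Simple.const hH hq
    · exact hR.neg
    · exact Simple.zero hH) (n := 2) (by omega) (by
    rw [Finset.sum_range_succ, Finset.sum_range_one]
    rw [if_neg (by norm_num), if_pos rfl, if_pos rfl, eval_C, eval_neg, pow_zero, pow_one, h0]
    ring) y hy
  rw [Finset.sum_range_succ, Finset.sum_range_one, if_neg (by norm_num), if_pos rfl, if_pos rfl, eval_C,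
    eval_neg, pow_zero, pow_one] at h1
  rw [eval_mul, eval_C]
  field_simp
  linear_combination h1

/-- growth -/
theorem exists_omega {ω : ℕ → ℕ} (hω : Filter.Tendsto ω Filter.atTop Filter.atTop) :
    ∃ m : ℕ → ℕ, Filter.Tendsto m Filter.atTop Filter.atTop ∧
      ∀ T, m T = 0 ∨ (m T + 1) ^ 3 ≤ ω T := by
  refine ⟨fun T => Nat.findGreatest (fun k => (k + 1) ^ 3 ≤ ω T) (ω T), ?_, fun T => ?_⟩
  · rw [Filter.tendsto_atTop]
    intro b
    filter_upwards [hω.eventually_ge_atTop ((b + 1) ^ 3)] with T hT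
    refine Nat.le_findGreatest ?_ hT
    refine le_trans ?_ hT
    nlinarith [Nat.zero_le (b ^ 3), Nat.zero_le (b ^ 2)]
  · by_cases h : Nat.findGreatest (fun k => (k + 1) ^ 3 ≤ ω T) (ω T) = 0
    · exact Or.inl h
    · exact Or.inr (Nat.findGreatest_of_ne_zero (P := fun k => (k + 1) ^ 3 ≤ ω T) (n := ω T) rfl h)

end Pool.Agent.N113.LP
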