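import Mathlib
import Pool.Agent.H340R2.LW2

/-!
# Points with coordinates in an algebraically closed subfield; scaling

`G t` are homogeneous quadratic polynomials with algebraic coefficients, `B t` algebraic numbers and
`V lam = {y | G t (y) = lam B t for all t}`.
-/

set_option autoImplicit false

namespace Pool.Agent.N113.LP

open MvPolynomial

/-- the coefficients of `R` lie in the subfield `k` -/
def Over {σ : Type} (k : Subfield ℂ) (R : MvPolynomial σ ℂ) : Prop := ∀ s, R.coeff s ∈ k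

theorem Over.lift {σ : Type} {k : Subfield ℂ} {R : MvPolynomial σ ℂ} (h : Over k R) :
    ∃ R' : MvPolynomial σ k, R'.map k.subtype = R := by
  classical
  refine ⟨∑ s ∈ R.support, monomial s ⟨R.coeff s, h s⟩, ?_⟩
  rw [map_sum]
  conv_rhs => rw [R.as_sum]
  refine Finset.sum_congr rfl fun s _ => ?_
  rw [map_monomial]
  rfl

/-- Nullstellensatz: points in an algebraically closed subfield -/
theorem ns {σ : Type} [Finite σ] (k : Subfield ℂ) [IsAlgClosed k] {τ : Type} (Q : τ → MvPolynomial σ ℂ)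
    (hQ : ∀ t, Over k (Q t)) (A : MvPolynomial σ ℂ) (hA : Over k A) (x : σ → ℂ)
    (hx : ∀ t, eval x (Q t) = 0) (hxA : eval x A ≠ 0) :
    ∃ y : σ → ℂ, (∀ i, y i ∈ k) ∧ (∀ t, eval y (Q t) = 0) ∧ eval y A ≠ 0 := by
  classical
  choose Q' hQ' using fun t => (hQ t).lift
  obtain ⟨A', hA'⟩ := hA.lift
  by_contra hcon
  push Not at hcon
  have hev : ∀ (y : σ → k) (R' : MvPolynomial σ k),
      eval (fun i => (y i : ℂ)) (R'.map k.subtype) = ((aeval y R' : k) : ℂ) := by
    intro y R'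
    rw [eval_map]
    have h1 := (MvPolynomial.eval₂_comp_left (k := k.subtype) (f := RingHom.id k) (g := y) R')
    rw [RingHom.comp_id] at h1
    rw [aeval_def]
    exact h1.symm
  have h1 : A' ∈ vanishingIdeal k (zeroLocus k (Ideal.span (Set.range Q'))) := by
    rw [mem_vanishingIdeal_iff]
    intro y hy
    have h2 := hcon (fun i => (y i : ℂ)) (fun i => (y i).2) (fun t => by
      rw [← hQ' t, hev]
      have h3 := hy (Q' t) (Ideal.subset_span ⟨t, rfl⟩)
      rw [h3]
      rfl)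
    rw [← hA', hev] at h2
    exact_mod_cast h2
  rw [vanishingIdeal_zeroLocus_eq_radical] at h1
  obtain ⟨m, hm⟩ := h1
  have h4 : ∀ R' ∈ Ideal.span (Set.range Q'), eval x (R'.map k.subtype) = 0 := by
    intro R' hR'
    have h5 : Ideal.span (Set.range Q') ≤ RingHom.ker ((eval x).comp (MvPolynomial.map k.subtype)) := by
      rw [Ideal.span_le]
      rintro _ ⟨t, rfl⟩
      change (eval x) ((Q' t).map k.subtype) = 0
      rw [hQ' t]
      exact hx t
    exact h5 hR'
  have h6 := h4 _ hm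
  rw [map_pow, map_pow, hA'] at h6
  exact hxA (by
    rcases Nat.eq_zero_or_pos m with h0 | h0
    · rw [h0, pow_zero] at h6
      exact absurd h6 one_ne_zero
    · exact (pow_eq_zero_iff h0.ne').1 h6)

/-- the action of the multiplicative group with the weights `wt` -/
def act {σ : Type} (wt : σ → ℕ) (c : ℂ) (y : σ → ℂ) : σ → ℂ := fun i => c ^ wt i * y i

theorem act_act {σ : Type} (wt : σ → ℕ) (c d : ℂ) (y : σ → ℂ) : act wt c (act wt d y) = act wt (c * d) y := by
  funext i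
  unfold act
  rw [mul_pow]
  ring

theorem act_one {σ : Type} (wt : σ → ℕ) (y : σ → ℂ) : act wt 1 y = y := by
  funext i
  unfold act
  rw [one_pow, one_mul]

/-- the value at the image of a point -/
theorem eval_scale {σ : Type} [Fintype σ] (wt : σ → ℕ) (c : ℂ) (y : σ → ℂ) (R : MvPolynomial σ ℂ) :
    eval (act wt c y) R = ∑ s ∈ R.support, R.coeff s * c ^ Finsupp.weight wt s * ∏ i, y i ^ s i := by
  rw [eval_eq']
  refine Finset.sum_congr rfl fun s _ => ?_
  rw [show (∏ i, act wt c y i ^ s i) = c ^ Finsupp.weight wt s * ∏ i, y i ^ s i by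
    unfold act
    simp only [mul_pow]
    rw [Finset.prod_mul_distrib]
    congr 1
    simp only [← pow_mul]
    rw [Finset.prod_pow_eq_pow_sum, Finsupp.weight_apply, Finsupp.sum_fintype _ _ (fun i => by simp)]
    congr 1
    refine Finset.sum_congr rfl fun i _ => ?_
    rw [smul_eq_mul, mul_comm]]
  ring

theorem hom_scale {σ : Type} [Fintype σ] {wt : σ → ℕ} {R : MvPolynomial σ ℂ} {d : ℕ}
    (hR : R.IsWeightedHomogeneous wt d) (c : ℂ) (y : σ → ℂ) : eval (act wt c y) R = c ^ d * eval y R := by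
  rw [eval_scale, eval_eq', Finset.mul_sum]
  refine Finset.sum_congr rfl fun s hs => ?_
  have h1 : Finsupp.weight wt s = d := hR (mem_support_iff.1 hs)
  rw [h1]
  ring

/-- all monomials have odd weight -/
def OddPol {σ : Type} (wt : σ → ℕ) (R : MvPolynomial σ ℂ) : Prop :=
  ∀ s, R.coeff s ≠ 0 → Odd (Finsupp.weight wt s)

theorem odd_neg {σ : Type} [Fintype σ] {wt : σ → ℕ} {R : MvPolynomial σ ℂ} (hR : OddPol wt R) (y : σ → ℂ) :
    eval (act wt (-1) y) R = -eval y R := by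
  rw [eval_scale, eval_eq', ← Finset.sum_neg_distrib]
  refine Finset.sum_congr rfl fun s hs => ?_
  rw [(hR s (mem_support_iff.1 hs)).neg_one_pow]
  ring

/-- the algebraic numbers -/
noncomputable def Qb : Subfield ℂ := (algebraicClosure ℚ ℂ).toSubfield

theorem mem_Qb {x : ℂ} : x ∈ Qb ↔ IsAlgebraic ℚ x := by
  change x ∈ algebraicClosure ℚ ℂ ↔ _
  rw [mem_algebraicClosure_iff]

instance : IsAlgClosed Qb :=
  (algebraicClosure.isAlgClosure ℚ ℂ).isAlgClosed

/-- the algebraic closure of `ℚ(lam)` -/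
noncomputable def Ql (lam : ℂ) : Subfield ℂ :=
  (algebraicClosure (IntermediateField.adjoin ℚ {lam}) ℂ).toSubfield

theorem mem_Ql {lam x : ℂ} : x ∈ Ql lam ↔ IsAlgebraic (IntermediateField.adjoin ℚ {lam}) x := by
  change x ∈ algebraicClosure (IntermediateField.adjoin ℚ {lam}) ℂ ↔ _
  rw [mem_algebraicClosure_iff]

instance (lam : ℂ) : IsAlgClosed (Ql lam) :=
  (algebraicClosure.isAlgClosure (IntermediateField.adjoin ℚ {lam}) ℂ).isAlgClosed

theorem Qb_le (lam : ℂ) : Qb ≤ Ql lam := by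
  intro x hx
  rw [mem_Ql]
  exact (mem_Qb.1 hx).tower_top (IntermediateField.adjoin ℚ {lam})

theorem lam_mem (lam : ℂ) : lam ∈ Ql lam := by
  rw [mem_Ql]
  exact isAlgebraic_algebraMap
    (⟨lam, IntermediateField.mem_adjoin_simple_self ℚ lam⟩ : IntermediateField.adjoin ℚ {lam})

section Cone

variable {σ : Type} [Fintype σ] {τ : Type} (G : τ → MvPolynomial σ ℂ) (B : τ → ℂ)

/-- the variety -/
def V (lam : ℂ) : Set (σ → ℂ) := {y | ∀ t, eval y (G t) = lam * B t}

variable {G B}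

theorem V_scale {wt : σ → ℕ} (hG : ∀ t, (G t).IsWeightedHomogeneous wt 2) {lam : ℂ} {y : σ → ℂ}
    (hy : y ∈ V G B lam) (c : ℂ) : act wt c y ∈ V G B (c ^ 2 * lam) := by
  intro t
  rw [hom_scale (hG t), hy t]
  ring

theorem V_neg {wt : σ → ℕ} (hG : ∀ t, (G t).IsWeightedHomogeneous wt 2) {lam : ℂ} {y : σ → ℂ}
    (hy : y ∈ V G B lam) : act wt (-1) y ∈ V G B lam := by
  have h := V_scale hG hy (-1)
  rwa [show (-1 : ℂ) ^ 2 * lam = lam by ring] at h

theorem V_point (hGa : ∀ t, Over Qb (G t)) (hB : ∀ t, B t ∈ Qb) (k : Subfield ℂ) [IsAlgClosed k]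
    (hk : Qb ≤ k) {lam : ℂ} (hl : lam ∈ k) {A : MvPolynomial σ ℂ} (hA : Over k A) {x : σ → ℂ}
    (hx : x ∈ V G B lam) (hxA : eval x A ≠ 0) :
    ∃ y ∈ V G B lam, (∀ i, y i ∈ k) ∧ eval y A ≠ 0 := by
  classical
  obtain ⟨y, h1, h2, h3⟩ := ns k (fun t => G t - C (lam * B t)) (fun t s => by
    rw [coeff_sub, coeff_C]
    refine k.sub_mem (hk (hGa t s)) ?_
    split_ifs
    · exact k.mul_mem hl (hk (hB t))
    · exact k.zero_mem) A hA x (fun t => by rw [map_sub, eval_C, hx t, sub_self]) hxA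
  refine ⟨y, fun t => ?_, h1, h3⟩
  have h4 := h2 t
  rw [map_sub, eval_C, sub_eq_zero] at h4
  exact h4

theorem eval_mem {k : Subfield ℂ} {A : MvPolynomial σ ℂ} (hA : Over k A) {y : σ → ℂ}
    (hy : ∀ i, y i ∈ k) : eval y A ∈ k := by
  rw [eval_eq']
  exact k.sum_mem fun s _ => k.mul_mem (hA s) (k.prod_mem fun i _ => k.pow_mem (hy i) _)

/-- numbers which are linearly independent over `k` -/
def Indep {ι : Type} [Fintype ι] (k : Subfield ℂ) (z : ι → ℂ) : Prop :=
  ∀ c : ι → ℂ, (∀ i, c i ∈ k) → ∑ i, c i * z i = 0 → ∀ i, c i = 0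

/-- relations with coefficients independent over the closure of `ℚ(lam)` -/
theorem gen_zero (hGa : ∀ t, Over Qb (G t)) (hB : ∀ t, B t ∈ Qb) {lam : ℂ} {ι : Type} [Fintype ι]
    {z : ι → ℂ} (hz : Indep (Ql lam) z) {R : ι → MvPolynomial σ ℂ} (hR : ∀ i, Over Qb (R i))
    (h : ∀ y ∈ V G B lam, ∑ i, eval y (R i) * z i = 0) (i : ι) {x : σ → ℂ} (hx : x ∈ V G B lam) :
    eval x (R i) = 0 := by
  by_contra hne
  obtain ⟨y, h1, h2, h3⟩ := V_point hGa hB (Ql lam) (Qb_le lam) (lam_mem lam)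
    (fun s => Qb_le lam (hR i s)) hx hne
  exact h3 (hz _ (fun i => eval_mem (fun s => Qb_le lam (hR i s)) h2) (h y h1) i)

/-- homogeneous relations of the same degree with coefficients independent over the algebraic numbers -/
theorem hom_zero {wt : σ → ℕ} (hG : ∀ t, (G t).IsWeightedHomogeneous wt 2) (hGa : ∀ t, Over Qb (G t)) (hB : ∀ t, B t ∈ Qb)
    {lam : ℂ} (hl : lam ≠ 0) {ι : Type} [Fintype ι] {z : ι → ℂ} (hz : Indep Qb z)
    {R : ι → MvPolynomial σ ℂ} (hR : ∀ i, Over Qb (R i)) {d : ℕ} (hd : ∀ i, (R i).IsWeightedHomogeneous wt d)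
    (h : ∀ y ∈ V G B lam, ∑ i, eval y (R i) * z i = 0) (i : ι) {x : σ → ℂ} (hx : x ∈ V G B lam) :
    eval x (R i) = 0 := by
  obtain ⟨s, hs⟩ := IsAlgClosed.exists_pow_nat_eq lam (n := 2) (by norm_num)
  have hs0 : s ≠ 0 := by
    rintro rfl
    exact hl (by rw [← hs]; norm_num)
  have hx' : act wt s⁻¹ x ∈ V G B 1 := by
    have h1 := V_scale hG hx s⁻¹
    rwa [← hs, ← mul_pow, inv_mul_cancel₀ hs0, one_pow] at h1
  have hback : eval x (R i) = s ^ d * eval (act wt s⁻¹ x) (R i) := by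
    rw [← hom_scale (hd i), act_act, mul_inv_cancel₀ hs0, act_one]
  by_contra hne
  have hne' : eval (act wt s⁻¹ x) (R i) ≠ 0 := by
    intro h0
    rw [h0, mul_zero] at hback
    exact hne hback
  obtain ⟨y, h1, h2, h3⟩ := V_point hGa hB Qb le_rfl Qb.one_mem (hR i) hx' hne'
  have h4 := V_scale hG h1 s
  rw [mul_one, hs] at h4
  have h5 := h _ h4
  have h6 : s ^ d * ∑ i, eval y (R i) * z i = 0 := by
    rw [← h5, Finset.mul_sum]
    refine Finset.sum_congr rfl fun i _ => ?_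
    rw [hom_scale (hd i)]
    ring
  have h7 := (mul_eq_zero.1 h6).resolve_left (pow_ne_zero _ hs0)
  exact h3 (hz _ (fun i => eval_mem (hR i) h2) h7 i)

/-- the values of polynomials which are constant on `V lam` -/
theorem const_val {wt : σ → ℕ} (hG : ∀ t, (G t).IsWeightedHomogeneous wt 2) (hGa : ∀ t, Over Qb (G t)) (hB : ∀ t, B t ∈ Qb)
    {lam : ℂ} (hl : lam ≠ 0) {R : MvPolynomial σ ℂ} (hR : Over Qb R) {z : ℂ} {x : σ → ℂ}
    (hx : x ∈ V G B lam) (h : ∀ y ∈ V G B lam, z = eval y R) :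
    z ∈ Algebra.adjoin (algebraicClosure ℚ ℂ) {lam} ∧ (OddPol wt R → z = 0) := by
  obtain ⟨s, hs⟩ := IsAlgClosed.exists_pow_nat_eq lam (n := 2) (by norm_num)
  have hs0 : s ≠ 0 := by
    rintro rfl
    exact hl (by rw [← hs]; norm_num)
  have hx' : act wt s⁻¹ x ∈ V G B 1 := by
    have h1 := V_scale hG hx s⁻¹
    rwa [← hs, ← mul_pow, inv_mul_cancel₀ hs0, one_pow] at h1
  obtain ⟨y, h1, h2, -⟩ := V_point (A := 1) hGa hB Qb le_rfl Qb.one_mem (fun s => by
    classical
    rw [coeff_one]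
    split_ifs
    · exact Qb.one_mem
    · exact Qb.zero_mem) hx' (by rw [map_one]; exact one_ne_zero)
  have h4 := V_scale hG h1 s
  rw [mul_one, hs] at h4
  have h5 := V_neg hG h4
  refine ⟨?_, fun hodd => ?_⟩
  · have h6 : 2 * z = ∑ t ∈ R.support,
        (R.coeff t * (s ^ Finsupp.weight wt t + (-s) ^ Finsupp.weight wt t) * ∏ i, y i ^ t i) := by
      have h7 := h _ h4
      have h8 : z = eval (act wt (-s) y) R := by
        rw [h _ h5, act_act, neg_one_mul]
      rw [eval_scale] at h7 h8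
      rw [two_mul]
      nth_rewrite 1 [h7]
      rw [h8, ← Finset.sum_add_distrib]
      refine Finset.sum_congr rfl fun t _ => ?_
      ring
    have hmem : 2 * z ∈ Algebra.adjoin (algebraicClosure ℚ ℂ) {lam} := by
      rw [h6]
      refine Subalgebra.sum_mem _ fun t _ => ?_
      have hal : ∀ w : ℂ, w ∈ Qb → w ∈ Algebra.adjoin (algebraicClosure ℚ ℂ) {lam} := fun w hw =>
        Subalgebra.algebraMap_mem _ (⟨w, hw⟩ : algebraicClosure ℚ ℂ)
      refine Subalgebra.mul_mem _ (Subalgebra.mul_mem _ (hal _ (hR t)) ?_)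
        (hal _ (Qb.prod_mem fun i _ => Qb.pow_mem (h2 i) _))
      rcases Nat.even_or_odd (Finsupp.weight wt t) with he | ho
      · obtain ⟨m, hm⟩ := he
        rw [hm, ← two_mul, pow_mul, pow_mul, neg_sq, hs]
        exact Subalgebra.add_mem _ (Subalgebra.pow_mem _ (Algebra.self_mem_adjoin_singleton _ lam) _)
          (Subalgebra.pow_mem _ (Algebra.self_mem_adjoin_singleton _ lam) _)
      · rw [ho.neg_pow, add_neg_cancel]
        exact Subalgebra.zero_mem _
    have h9 := Subalgebra.mul_mem _ (Subalgebra.algebraMap_mem (Algebra.adjoin (algebraicClosure ℚ ℂ) {lam})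
      (2⁻¹ : algebraicClosure ℚ ℂ)) hmem
    rwa [map_inv₀, map_ofNat, ← mul_assoc, inv_mul_cancel₀ (two_ne_zero), one_mul] at h9
  · have h7 := h _ h5
    rw [odd_neg hodd, ← h _ h4] at h7
    have h8 : 2 * z = 0 := by linear_combination h7
    simpa using h8

end Cone

end Pool.Agent.N113.LP
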