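import Pool.Agent.N121.OC.Main
import Pool.Agent.N113.LP.Apply

/-!
# Affine hyperelliptic curves over arbitrary groups of coefficients: relations with algebraic coefficients

The definitions and the theorem `base` are those of helper121's hand-in `MP_5d33ca_ag.AffineHyperellipticCurves`.
-/

set_option autoImplicit false

open Polynomial NumberField Filter

namespace Pool.Agent.N113.LP.Curves

variable {N : ℕ}

/-- twice the genus of the curves `y² = F(x)`, `F` of degree `m + 1` -/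
abbrev dim (m : ℕ) : ℕ := 2 * (m / 2)

/-- the indices of the coefficients -/
abbrev Coef (n : Fin N → ℕ) (q : ℕ) : Type := (Σ j, Fin (n j + 2)) × Fin (q + 1)

/-- the polynomials `F_j = ∑ (∑_i b_(j,m,i) w_i) x ^ m`, `m ≤ n_j + 1` -/
noncomputable def pol (n : Fin N → ℕ) {q : ℕ} (w : Fin (q + 1) → ℂ) (b : Coef n q → ℤ) (j : Fin N) : ℂ[X] :=
  ∑ m : Fin (n j + 2), C (∑ i, w i * (b (⟨j, m⟩, i) : ℂ)) * X ^ (m : ℕ)

/-- the tuples with `|b_(j,m,i)| ≤ T` -/
noncomputable def Box (n : Fin N → ℕ) (q T : ℕ) : Finset (Coef n q → ℤ) :=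
  Fintype.piFinset fun _ => Finset.Icc (-(T : ℤ)) T

/-- `F` has degree `m + 1` and its roots are `e`, in increasing order with respect to `re + im` (so they are
distinct) -/
def Branch {m : ℕ} (F : ℂ[X]) (e : Fin (m + 1) → ℂ) : Prop :=
  F.coeff (m + 1) ≠ 0 ∧ F = C (F.coeff (m + 1)) * ∏ r, (X - C (e r)) ∧
    ∀ r s, r < s → (e r).re + (e r).im < (e s).re + (e s).im

/-- a branch of the square root of `c ∏ (x - e i)`, for `x` on the segment from `e l` to `e (l + 1)`: all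
arguments of the principal square roots have real part `≥ 0`, up to the first two (constant) factors -/
noncomputable def root {m : ℕ} (c : ℂ) (e : Fin (m + 1) → ℂ) (l : Fin m) (x : ℂ) : ℂ :=
  ((1 + Complex.I) ^ (1 / 2 : ℂ)) ^ (m + 2) * (c / (1 + Complex.I)) ^ (1 / 2 : ℂ) *
    Complex.I ^ (m % 2 + (l : ℕ) % 2) *
    ∏ i : Fin (m + 1), ((if (i : ℕ) ≤ l then x - e i else e i - x) / (1 + Complex.I)) ^ (1 / 2 : ℂ)

/-- the point of the segment from `p` to `q` -/
noncomputable def seg (p q : ℂ) (t : ℝ) : ℂ := (1 - t) * p + t * q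

/-- the period `∮ x ^ j dx / y`, `y² = c ∏ (x - e i)`, over the loop around the segment from `e l` to `e (l + 1)`, that
is twice the integral over the segment -/
noncomputable def period {m : ℕ} (c : ℂ) (e : Fin (m + 1) → ℂ) (l j : Fin m) : ℂ :=
  2 * ∫ t in (0 : ℝ)..1, (seg (e l.castSucc) (e l.succ) t) ^ (j : ℕ) /
    root c e l (seg (e l.castSucc) (e l.succ) t) * (e l.succ - e l.castSucc)

/-- the `i`-th form is `∑ form m F i k * x ^ k dx / y`: for `i < g = ⌊m / 2⌋` it is `x ^ i dx / y`, and for `i = g + i'`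
it is the form of the second kind `∑_(i'<k) (i' - k)/2 c_(i'+k+2) x ^ k dx / y`, where `F = ∑ c_k x ^ k` -/
noncomputable def form (m : ℕ) (F : ℂ[X]) (i k : ℕ) : ℂ :=
  if i < m / 2 then (if k = i then 1 else 0) else
    (if i - m / 2 < k then (((i - m / 2 : ℕ) : ℂ) - (k : ℂ)) / 2 * F.coeff (i - m / 2 + k + 2) else 0)

/-- the matrix of the periods of the `2 g` forms over the first `2 g` loops, `g = ⌊m / 2⌋` -/
noncomputable def periods {m : ℕ} (F : ℂ[X]) (e : Fin (m + 1) → ℂ) : Matrix (Fin (dim m)) (Fin (dim m)) ℂ :=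
  Matrix.of fun l i => ∑ k : Fin m,
    period (F.coeff (m + 1)) e (Fin.castLE (by unfold dim; omega) l) k * form m F (i : ℕ) (k : ℕ)

/-- the periods of the form of the third kind `x ^ g dx / y` over the first `2 g` loops, where `m = 2 g + 1` is odd; for
even `m` the index set `Fin (m % 2)` is empty and there is no such form -/
noncomputable def thirdKind {m : ℕ} (F : ℂ[X]) (e : Fin (m + 1) → ℂ) (s : Fin (m % 2) × Fin (dim m)) : ℂ :=
  period (F.coeff (m + 1)) e (Fin.castLE (by unfold dim; omega) s.2)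
    ⟨m / 2, by have h := s.1.2; omega⟩

/-- the polarisation in terms of the forms: the standard symplectic matrix -/
def polDR (m : ℕ) : Matrix (Fin (dim m)) (Fin (dim m)) ℚ :=
  Matrix.of fun r s => if (s : ℕ) = r + m / 2 then 1 else if (r : ℕ) = s + m / 2 then -1 else 0

/-- the polarisation in terms of the loops: `2 (-1) ^ r` at `(r, s)`, `|r - s| = 1` -/
def polB (m : ℕ) : Matrix (Fin (dim m)) (Fin (dim m)) ℚ :=
  Matrix.of fun r s => if (r : ℕ) = s + 1 ∨ (s : ℕ) = r + 1 then 2 * (-1) ^ (r : ℕ) else 0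

/-- the names of all the periods: the entries of the matrices of the curves, and the periods of the third kind of the
curves with odd `n_j` -/
abbrev Ind (n : Fin N → ℕ) : Type :=
  (Σ j, Fin (dim (n j)) × Fin (dim (n j))) ⊕ (Σ j, Fin (n j % 2) × Fin (dim (n j)))

/-- the periods of the affine curves `y² = F_j(x)` -/
noncomputable def allPeriods {n : Fin N → ℕ} (F : Fin N → ℂ[X]) (e : ∀ j, Fin (n j + 1) → ℂ) : Ind n → ℂ :=
  Sum.elim (fun s => periods (F s.1) (e s.1) s.2.1 s.2.2) (fun s => thirdKind (F s.1) (e s.1) s.2)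

/-- the matrix at the place of the periods of the first and second kind of the curve `j` -/
def matrix {n : Fin N → ℕ} (Y : Ind n → ℂ) (j : Fin N) : Matrix (Fin (dim (n j))) (Fin (dim (n j))) ℂ :=
  Matrix.of fun l i => Y (Sum.inl ⟨j, (l, i)⟩)

/-- the complex points of the torsor: `Y` and `lam ≠ 0` with `X_j polDR X_jᵀ = lam polB` for the matrices `X_j` of `Y`;
the coordinates of `Y` at the places of the periods of the third kind are arbitrary -/
def Torsor (n : Fin N → ℕ) : Set ((Ind n → ℂ) × ℂ) :=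
  {x | x.2 ≠ 0 ∧ ∀ j, matrix x.1 j * (polDR (n j)).map (algebraMap ℚ ℂ) * (matrix x.1 j).transpose =
    x.2 • (polB (n j)).map (algebraMap ℚ ℂ)}

/-- the point with the coordinates `Y` and `lam` -/
def point {n : Fin N → ℕ} (Y : Ind n → ℂ) (lam : ℂ) : Option (Ind n) → ℂ := fun o => o.elim lam Y

/-- every relation `∑ ξ_b P_b(Y) = 0`, `b < k`, `P_b` integral polynomials of degree `≤ k` with coefficients `≤ H` in
absolute value, holds on the fibre of the torsor over `2πi` -/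
def RelativeGPC (n : Fin N → ℕ) (Y : Ind n → ℂ) (k : ℕ) (ξ : Fin k → ℂ) (H : ℝ) : Prop :=
  ∀ P : Fin k → MvPolynomial (Ind n) ℤ, (∀ b, (P b).totalDegree ≤ k) →
    (∀ b s, |(((P b).coeff s : ℤ) : ℝ)| ≤ H) → ∑ b, ξ b * MvPolynomial.aeval Y (P b) = 0 →
    ∀ Z, (Z, (2 * Real.pi * Complex.I : ℂ)) ∈ Torsor n → ∑ b, ξ b * MvPolynomial.aeval Z (P b) = 0

/-- every polynomial `P` of degree `≤ k` with coefficients in the ring of integers of a number field of degree `≤ k`,
all conjugates of the coefficients being `≤ H` in absolute value, with `P(Y, 2πi) = 0`, vanishes on the torsor -/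
def BoundedGPC (n : Fin N → ℕ) (Y : Ind n → ℂ) (k : ℕ) (H : ℝ) : Prop :=
  ∀ (K : Type) [Field K] [NumberField K] (φ : K →+* ℂ) (P : MvPolynomial (Option (Ind n)) (𝓞 K)),
    Module.finrank ℚ K ≤ k → P.totalDegree ≤ k →
    (∀ s (ψ : K →+* ℂ), ‖ψ (algebraMap (𝓞 K) K (P.coeff s))‖ ≤ H) →
    (P.map (φ.comp (algebraMap (𝓞 K) K))).eval (point Y (2 * Real.pi * Complex.I)) = 0 →
    ∀ x ∈ Torsor n, (P.map (φ.comp (algebraMap (𝓞 K) K))).eval (point x.1 x.2) = 0

/-- Let `N ≥ 1`, let `n_1, …, n_N` be natural numbers and let `w_0 = 1, w_1, …, w_q` be complex numbers. There is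
`ω : ℕ → ℕ`, `ω(T) → ∞`, such that for all `ε > 0` and `T ≥ T₀(ε)` and all complex numbers `ξ_b`, `b < ω(T)`, all but a
proportion `ε` of the tuples `b` with `|b_(j,m,i)| ≤ T` satisfy: `F_j` has degree `n_j + 1` and distinct roots, with
distinct `re + im`; the periods of the affine curves `y² = F_j(x)`, those of the third kind included, and `2πi` form a
point of the torsor; all relations of degree `≤ ω(T)` between the periods with coefficients `∑ c_b ξ_b`, `c_b` integers,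
`|c_b| ≤ T ^ ω(T)`, hold on the fibre of the torsor over `2πi`; all relations of degree `≤ ω(T)` and size
`≤ T ^ ω(T)` over number fields of degree `≤ ω(T)` between the periods and `2πi` hold on the torsor. -/
theorem base (hN : 1 ≤ N) (n : Fin N → ℕ) (q : ℕ) (w : Fin (q + 1) → ℂ) (hw : w 0 = 1) :
    ∃ ω : ℕ → ℕ, Tendsto ω atTop atTop ∧ ∀ ε : ℝ, 0 < ε → ∃ T₀ : ℕ, ∀ T : ℕ, T₀ ≤ T → ∀ ξ : Fin (ω T) → ℂ,
      ∃ E ⊆ Box n q T, (E.card : ℝ) ≤ ε * (Box n q T).card ∧ ∀ b ∈ Box n q T, b ∉ E →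
        ∃ e : ∀ j, Fin (n j + 1) → ℂ, (∀ j, Branch (pol n w b j) (e j)) ∧
          (allPeriods (pol n w b) e, (2 * Real.pi * Complex.I : ℂ)) ∈ Torsor n ∧
          RelativeGPC n (allPeriods (pol n w b) e) (ω T) ξ ((T : ℝ) ^ ω T) ∧
          BoundedGPC n (allPeriods (pol n w b) e) (ω T) ((T : ℝ) ^ ω T) := by
  have : Nonempty (Fin N) := ⟨⟨0, hN⟩⟩
  obtain ⟨ω, hω, H⟩ := Pool.Agent.N121.OC.main n hw
  refine ⟨ω, hω, fun ε hε => ?_⟩
  obtain ⟨T₀, hT₀⟩ := H ε hε
  refine ⟨T₀, fun T hT ξ => ?_⟩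
  obtain ⟨E, hE1, hE2, hE3⟩ := hT₀ T hT ξ
  have hbox : Pool.Agent.N121.OH.BX (Pool.Agent.N121.BF.wt n q) T = Box n q T := by
    unfold Pool.Agent.N121.OH.BX Box Pool.Agent.N121.BF.wt
    simp
  rw [hbox] at hE1 hE2 hE3
  refine ⟨E, hE1, hE2, fun b hb hbE => ?_⟩
  obtain ⟨e, he, h1, h2, h3⟩ := hE3 b hb hbE
  set a : (Σ j, Fin (n j + 2)) → ℂ := Pool.Agent.N121.BF.Lm w fun p => ((b p : ℤ) : ℂ) with ha
  have hpol : ∀ j, pol n w b j = Pool.Agent.N121.AH.fp (Pool.Agent.Y890.MV.pj a j) := fun j => rfl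
  have hlead : ∀ j, (pol n w b j).coeff (n j + 1) = a ⟨j, Fin.last (n j + 1)⟩ := by
    intro j
    rw [hpol, Pool.Agent.N121.AH.fp_coeff, dif_pos (by omega)]
    rfl
  have hroot : ∀ j (c : ℂ) (e : Fin (n j + 1) → ℂ) (l : Fin (n j)) (x : ℂ), root c e l x =
      Pool.Agent.N121.AH.rtG c e l x := by
    intro j c e l x
    unfold root Pool.Agent.N121.AH.rtG Pool.Agent.N121.AH.scf Pool.Agent.N121.OH.rtF Pool.Agent.N121.AH.w0
      Pool.Agent.N121.AH.u0
    rw [pow_add Complex.I]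
    ring
  have hperG : ∀ j (c : ℂ) (e : Fin (n j + 1) → ℂ) (l k : Fin (n j)), period c e l k =
      Pool.Agent.N121.AH.perG c e l k := by
    intro j c e l k
    unfold period Pool.Agent.N121.AH.perG
    simp only [hroot]
    rfl
  have hper : allPeriods (pol n w b) e = Pool.Agent.N121.OC.PX n a e := by
    funext s
    rcases s with ⟨j, l, i⟩ | ⟨j, u, l⟩
    · show periods (pol n w b j) (e j) l i = Pool.Agent.N121.AH.PM n a e j l i
      unfold periods Pool.Agent.N121.AH.PM Pool.Agent.N121.AH.PF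
      rw [Matrix.of_apply, Matrix.mul_apply]
      refine Finset.sum_congr rfl fun k _ => ?_
      rw [Matrix.of_apply, hperG]
      rfl
    · show period ((pol n w b j).coeff (n j + 1)) (e j) _ _ = Pool.Agent.N121.OC.PT n a e ⟨j, (u, l)⟩
      rw [hlead, hperG]
      rfl
  have htor : Torsor n = Pool.Agent.N121.OC.TorY n := by
    have hq : ∀ j, (polDR (n j)).map (algebraMap ℚ ℂ) = Pool.Agent.N121.AH.q0 ℂ (n j) := by
      intro j
      ext r s
      rw [Matrix.map_apply]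
      unfold polDR Pool.Agent.N121.AH.q0
      rw [Matrix.of_apply, Matrix.of_apply]
      split_ifs <;> simp
    ext x
    unfold Torsor Pool.Agent.N121.OC.TorY Pool.Agent.N121.AH.TorG
    simp only [Set.mem_ofPred_eq, hq]
    rfl
  refine ⟨e, fun j => ⟨?_, ?_, (he j).2.2⟩, ?_, ?_, ?_⟩
  · rw [hlead]
    exact (he j).1
  · rw [hlead, hpol]
    exact (he j).2.1
  · rw [htor, hper]
    exact h1
  · rw [hper]
    intro P hd hc h0 Y hY
    rw [htor] at hY
    exact h3 P hd hc h0 Y hY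
  · rw [hper]
    intro K _ _ φ P hK hd hc h0 x hx
    rw [htor] at hx
    exact h2 K φ P hK hd hc h0 x hx



/-! ### The equations of the torsor -/

/-- the weights: `1` for the periods of the first and second kind, arbitrary weights `κ` for the periods of the third
kind -/
def wt {n : Fin N → ℕ} (κ : (Σ j, Fin (n j % 2) × Fin (dim (n j))) → ℕ) : Ind n → ℕ := Sum.elim (fun _ => 1) κ

/-- the names of the equations -/
abbrev Eqn (n : Fin N → ℕ) : Type := Σ j, Fin (dim (n j)) × Fin (dim (n j))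

/-- the quadratic forms `(Y_j polDR Y_jᵀ)_(a,b)` -/
noncomputable def G (n : Fin N → ℕ) (t : Eqn n) : MvPolynomial (Ind n) ℂ :=
  ∑ c : Fin (dim (n t.1)), ∑ d : Fin (dim (n t.1)),
    MvPolynomial.C (((polDR (n t.1) c d : ℚ) : ℂ)) *
      (MvPolynomial.X (Sum.inl ⟨t.1, (t.2.1, c)⟩) * MvPolynomial.X (Sum.inl ⟨t.1, (t.2.2, d)⟩))

/-- the right hand sides -/
noncomputable def B (n : Fin N → ℕ) (t : Eqn n) : ℂ := ((polB (n t.1) t.2.1 t.2.2 : ℚ) : ℂ)

theorem G_hom (n : Fin N → ℕ) (κ : (Σ j, Fin (n j % 2) × Fin (dim (n j))) → ℕ) (t : Eqn n) :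
    (G n t).IsWeightedHomogeneous (wt κ) 2 := by
  refine MvPolynomial.IsWeightedHomogeneous.sum _ _ _ fun c _ =>
    MvPolynomial.IsWeightedHomogeneous.sum _ _ _ fun d _ => ?_
  have h1 := (MvPolynomial.isWeightedHomogeneous_C (wt κ) (((polDR (n t.1) c d : ℚ) : ℂ))).mul
    ((MvPolynomial.isWeightedHomogeneous_X ℂ (wt κ) (Sum.inl ⟨t.1, (t.2.1, c)⟩ : Ind n)).mul
      (MvPolynomial.isWeightedHomogeneous_X ℂ (wt κ) (Sum.inl ⟨t.1, (t.2.2, d)⟩ : Ind n)))
  simpa [wt] using h1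

theorem G_over (n : Fin N → ℕ) (t : Eqn n) : Over Qb (G n t) := by
  classical
  intro s
  unfold G
  rw [MvPolynomial.coeff_sum]
  refine Qb.sum_mem fun c _ => ?_
  rw [MvPolynomial.coeff_sum]
  refine Qb.sum_mem fun d _ => ?_
  rw [MvPolynomial.coeff_C_mul]
  refine Qb.mul_mem (SubfieldClass.ratCast_mem Qb _) ?_
  simp only [MvPolynomial.X, MvPolynomial.monomial_mul, MvPolynomial.coeff_monomial]
  split_ifs
  · rw [mul_one]
    exact Qb.one_mem
  · exact Qb.zero_mem

theorem B_over (n : Fin N → ℕ) (t : Eqn n) : B n t ∈ Qb := SubfieldClass.ratCast_mem Qb _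

theorem mem_V (n : Fin N → ℕ) (lam : ℂ) (Y : Ind n → ℂ) :
    Y ∈ V (G n) (B n) lam ↔ ∀ j, matrix Y j * (polDR (n j)).map (algebraMap ℚ ℂ) * (matrix Y j).transpose =
      lam • (polB (n j)).map (algebraMap ℚ ℂ) := by
  have key : ∀ t : Eqn n, MvPolynomial.eval Y (G n t) =
      (matrix Y t.1 * (polDR (n t.1)).map (algebraMap ℚ ℂ) * (matrix Y t.1).transpose) t.2.1 t.2.2 := by
    intro t
    unfold G
    rw [map_sum, Matrix.mul_apply]
    simp only [map_sum, map_mul, MvPolynomial.eval_C, MvPolynomial.eval_X, Matrix.mul_apply,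
      Matrix.transpose_apply, Matrix.map_apply, Finset.sum_mul]
    rw [Finset.sum_comm]
    refine Finset.sum_congr rfl fun d _ => Finset.sum_congr rfl fun c _ => ?_
    unfold matrix
    rw [show (algebraMap ℚ ℂ) (polDR (n t.1) c d) = ((polDR (n t.1) c d : ℚ) : ℂ) from rfl]
    simp only [Matrix.of_apply]
    ring
  constructor
  · intro h j
    ext a b
    have h1 := h ⟨j, (a, b)⟩
    rw [key] at h1
    rw [h1]
    rfl
  · intro h t
    rw [key, h t.1]
    rfl

/-- **100% of the tuples of curves**: the relations with simple coefficients between given numbers and the periods -/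
theorem good (hN : 1 ≤ N) (n : Fin N → ℕ) (q : ℕ) (w : Fin (q + 1) → ℂ) (hw : w 0 = 1) :
    ∃ m : ℕ → ℕ, Tendsto m atTop atTop ∧ ∀ ε : ℝ, 0 < ε → ∃ T₀ : ℕ, ∀ T : ℕ, T₀ ≤ T → ∀ z β : ℕ → ℂ,
      ∃ E ⊆ Box n q T, (E.card : ℝ) ≤ ε * (Box n q T).card ∧ ∀ b ∈ Box n q T, b ∉ E →
        ∃ e : ∀ j, Fin (n j + 1) → ℂ, (∀ j, Branch (pol n w b j) (e j)) ∧
          allPeriods (pol n w b) e ∈ V (G n) (B n) (2 * Real.pi * Complex.I) ∧
          Good (allPeriods (pol n w b) e) (V (G n) (B n) (2 * Real.pi * Complex.I))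
            (m T) ((T : ℝ) ^ m T) z β := by
  obtain ⟨ω, hω, H⟩ := base hN n q w hw
  obtain ⟨m, hm, hm'⟩ := exists_omega hω
  refine ⟨m, hm, fun ε hε => ?_⟩
  obtain ⟨T₀, hT₀⟩ := H ε hε
  refine ⟨max T₀ 1, fun T hT z β => ?_⟩
  obtain ⟨ξ, hξ⟩ := exists_xi' (σ := Ind n) (hm' T) z β
  obtain ⟨E, hE1, hE2, hE3⟩ := hT₀ T ((le_max_left _ _).trans hT) ξ
  refine ⟨E, hE1, hE2, fun b hb hbE => ?_⟩
  obtain ⟨e, he, h1, h2, -⟩ := hE3 b hb hbE
  have hT1 : (1 : ℝ) ≤ T := by exact_mod_cast (le_max_right T₀ 1).trans hT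
  refine ⟨e, he, (mem_V n _ _).2 h1.2, hξ _ _ T hT1 ?_⟩
  intro P hd hc h0 y hy
  exact h2 P hd hc h0 _ ⟨h1.1, (mem_V n _ _).1 hy⟩

end Pool.Agent.N113.LP.Curves
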