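import Pool.Agent.N113.LP.Apply
import Pool.Agent.H340R2.LW

/-!
# Consequences of `Good`
-/

set_option autoImplicit false

namespace Pool.Agent.N113.LP

open MvPolynomial

/-- an element which is algebraic over an algebraically closed subfield belongs to it -/
theorem mem_of_root (k : Subfield ℂ) [IsAlgClosed k] {x : ℂ} (hx : IsAlgebraic k x) : x ∈ k := by
  have h1 := minpoly.irreducible hx.isIntegral
  have h2 := IsAlgClosed.degree_eq_one_of_irreducible k h1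
  obtain ⟨y, hy⟩ := minpoly.mem_range_of_degree_eq_one k x h2
  rw [← hy]
  exact y.2

/-- powers of a number outside of `k` are independent over `k` -/
theorem indep_pow (k : Subfield ℂ) [IsAlgClosed k] {x : ℂ} (hx : x ∉ k) (n : ℕ) :
    Indep k (fun l : Fin n => x ^ (l : ℕ)) := by
  classical
  intro c hc h0 i
  by_contra hi
  apply hx
  apply mem_of_root k
  refine ⟨∑ l : Fin n, Polynomial.monomial (l : ℕ) (⟨c l, hc l⟩ : k), ?_, ?_⟩
  · intro h1
    have h2 := congrArg (fun p => p.coeff (i : ℕ)) h1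
    simp only [Polynomial.finsetSum_coeff, Polynomial.coeff_monomial, Polynomial.coeff_zero] at h2
    rw [Finset.sum_eq_single_of_mem i (Finset.mem_univ _) (fun j _ hj => by
      rw [if_neg (fun h => hj (Fin.ext h))]), if_pos rfl] at h2
    exact hi (congrArg Subtype.val h2)
  · rw [map_sum, ← h0]
    refine Finset.sum_congr rfl fun l _ => ?_
    rw [Polynomial.aeval_monomial]
    rfl

theorem Ql_mono {lam mu : ℂ} (h : lam ∈ Ql mu) : Ql lam ≤ Ql mu := by
  intro x hx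
  rw [mem_Ql] at hx
  have h1 : ∀ y ∈ IntermediateField.adjoin ℚ {lam}, y ∈ Ql mu := by
    intro y hy
    have h2 : IntermediateField.adjoin ℚ {lam} ≤
        (algebraicClosure (IntermediateField.adjoin ℚ {mu}) ℂ).restrictScalars ℚ := by
      rw [IntermediateField.adjoin_le_iff]
      rintro _ rfl
      exact h
    exact h2 hy
  obtain ⟨p, hp, hp0⟩ := hx
  apply mem_of_root (Ql mu)
  have hle : (IntermediateField.adjoin ℚ {lam}).toSubfield ≤ Ql mu := h1
  let f : IntermediateField.adjoin ℚ {lam} →+* Ql mu := Subfield.inclusion hle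
  refine ⟨p.map f, (Polynomial.map_ne_zero_iff f.injective).2 hp, ?_⟩
  rw [Polynomial.aeval_def, Polynomial.eval₂_map]
  exact hp0

theorem tpi_mem : (2 * Real.pi * Complex.I : ℂ) ∈ Ql (Real.pi : ℂ) := by
  have h2 : (2 : ℂ) ∈ Ql (Real.pi : ℂ) := Qb_le _ (mem_Qb.2 (by simpa using isAlgebraic_natCast (R := ℚ) (A := ℂ) 2))
  have hI : Complex.I ∈ Ql (Real.pi : ℂ) := Qb_le _ (mem_Qb.2 (by
    refine ⟨Polynomial.X ^ 2 + 1, ?_, by simp⟩
    intro h
    have h1 := congrArg (fun p => p.coeff 0) h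
    simp at h1))
  exact (Ql _).mul_mem ((Ql _).mul_mem h2 (lam_mem _)) hI

theorem not_mem_of_transcendental {x : ℂ}
    (hx : Transcendental (IntermediateField.adjoin ℚ {(Real.pi : ℂ)}) x) :
    x ∉ Ql (2 * Real.pi * Complex.I) := by
  intro h
  exact hx (mem_Ql.1 (Ql_mono tpi_mem h))

theorem adjoin_tpi : (Algebra.adjoin (algebraicClosure ℚ ℂ) {(2 * Real.pi * Complex.I : ℂ)}) ≤
    Algebra.adjoin (algebraicClosure ℚ ℂ) {(Real.pi : ℂ)} := by
  refine Algebra.adjoin_le ?_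
  rintro _ rfl
  have hal : ∀ w : ℂ, w ∈ Qb → w ∈ Algebra.adjoin (algebraicClosure ℚ ℂ) {(Real.pi : ℂ)} := fun w hw =>
    Subalgebra.algebraMap_mem _ (⟨w, hw⟩ : algebraicClosure ℚ ℂ)
  have h2 : (2 : ℂ) ∈ Qb := mem_Qb.2 (by simpa using isAlgebraic_natCast (R := ℚ) (A := ℂ) 2)
  have hI : Complex.I ∈ Qb := mem_Qb.2 (by
    refine ⟨Polynomial.X ^ 2 + 1, ?_, by simp⟩
    intro h
    have h1 := congrArg (fun p => p.coeff 0) h
    simp at h1)
  exact Subalgebra.mul_mem _ (Subalgebra.mul_mem _ (hal _ h2) (Algebra.self_mem_adjoin_singleton _ _))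
    (hal _ hI)

theorem tpi_ne : (2 * Real.pi * Complex.I : ℂ) ≠ 0 := Complex.two_pi_I_ne_zero

section concl

variable {σ : Type} [Fintype σ] {τ : Type} {G : τ → MvPolynomial σ ℂ} {B : τ → ℂ}

/-- homogeneous relations of the same degree, linear in independent numbers -/
theorem Good.hom_lin {wt : σ → ℕ} (hG : ∀ t, (G t).IsWeightedHomogeneous wt 2) (hGa : ∀ t, Over Qb (G t)) (hB : ∀ t, B t ∈ Qb)
    {lam : ℂ} (hl : lam ≠ 0) {x : σ → ℂ} (hx : x ∈ V G B lam) {m : ℕ} {H : ℝ} {z β : ℕ → ℂ}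
    (h : Good x (V G B lam) m H z β) (hH : 0 ≤ H) (hβ : ∀ b, IsAlgebraic ℚ (β b))
    (hz : Indep Qb (fun i : Fin m => z i)) (d : ℕ) (R : ℕ → MvPolynomial σ ℂ)
    (hR : ∀ i, Simple β m H (R i) ∧ (R i).IsWeightedHomogeneous wt d)
    (h0 : ∑ i ∈ Finset.range m, eval x (R i) * z i = 0) (i : ℕ) (hi : i < m) : eval x (R i) = 0 := by
  have h1 := h.lin hH R (fun i => (hR i).1) h0
  exact hom_zero hG hGa hB hl hz (fun i : Fin m => (hR i).1.over hβ) (fun i => (hR i).2)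
    (fun y hy => by
      have h2 := h1 y hy
      rwa [Finset.sum_range] at h2) ⟨i, hi⟩ hx

/-- homogeneous relations of the same degree, polynomial in a transcendental number -/
theorem Good.hom_one {wt : σ → ℕ} (hG : ∀ t, (G t).IsWeightedHomogeneous wt 2) (hGa : ∀ t, Over Qb (G t)) (hB : ∀ t, B t ∈ Qb)
    {lam : ℂ} (hl : lam ≠ 0) {x : σ → ℂ} (hx : x ∈ V G B lam) {m : ℕ} {H : ℝ} {z β : ℕ → ℂ}
    (h : Good x (V G B lam) m H z β) (hH : 0 ≤ H) (hβ : ∀ b, IsAlgebraic ℚ (β b)) {i : ℕ} (hi : i < m)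
    (hz : Transcendental ℚ (z i)) (d : ℕ) (A : ℕ → MvPolynomial σ ℂ)
    (hA : ∀ l, Simple β m H (A l) ∧ (A l).IsWeightedHomogeneous wt d)
    (h0 : ∑ l ∈ Finset.range m, eval x (A l) * z i ^ l = 0) (l : ℕ) (hl' : l < m) :
    eval x (A l) = 0 := by
  have h1 := h.one hH hi A (fun l => (hA l).1) (by omega) h0
  exact hom_zero hG hGa hB hl (indep_pow Qb (fun hm => hz (mem_Qb.1 hm)) m)
    (fun l : Fin m => (hA l).1.over hβ) (fun l => (hA l).2)
    (fun y hy => by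
      have h2 := h1 y hy
      rwa [Finset.sum_range] at h2) ⟨l, hl'⟩ hx

/-- relations polynomial in a number which is not algebraic over `ℚ(lam)` -/
theorem Good.gen_one (hGa : ∀ t, Over Qb (G t)) (hB : ∀ t, B t ∈ Qb)
    {lam : ℂ} {x : σ → ℂ} (hx : x ∈ V G B lam) {m : ℕ} {H : ℝ} {z β : ℕ → ℂ}
    (h : Good x (V G B lam) m H z β) (hH : 0 ≤ H) (hβ : ∀ b, IsAlgebraic ℚ (β b)) {i : ℕ} (hi : i < m)
    (hz : z i ∉ Ql lam) (A : ℕ → MvPolynomial σ ℂ) (hA : ∀ l, Simple β m H (A l))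
    (h0 : ∑ l ∈ Finset.range m, eval x (A l) * z i ^ l = 0) (l : ℕ) (hl' : l < m) :
    eval x (A l) = 0 := by
  have h1 := h.one hH hi A hA (by omega) h0
  exact gen_zero hGa hB (indep_pow (Ql lam) hz m) (fun l : Fin m => (hA l).over hβ)
    (fun y hy => by
      have h2 := h1 y hy
      rwa [Finset.sum_range] at h2) ⟨l, hl'⟩ hx

/-- values of polynomials -/
theorem Good.value {wt : σ → ℕ} (hG : ∀ t, (G t).IsWeightedHomogeneous wt 2) (hGa : ∀ t, Over Qb (G t)) (hB : ∀ t, B t ∈ Qb)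
    {x : σ → ℂ} (hx : x ∈ V G B (2 * Real.pi * Complex.I)) {m : ℕ} {H : ℝ} {z β : ℕ → ℂ}
    (h : Good x (V G B (2 * Real.pi * Complex.I)) m H z β) (hH : 0 ≤ H) (hβ : ∀ b, IsAlgebraic ℚ (β b))
    {i : ℕ} (hi : i < m) {c : ℂ} (hc : Combination β m H c) (hc0 : c ≠ 0) {R : MvPolynomial σ ℂ}
    (hR : Simple β m H R) (h0 : c * z i = eval x R) :
    z i ∈ Algebra.adjoin (algebraicClosure ℚ ℂ) {(Real.pi : ℂ)} ∧
      (z i ≠ 0 → ∃ s, R.coeff s ≠ 0 ∧ Even (Finsupp.weight wt s)) := by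
  have h1 := h.val hH hi hc hc0 hR h0
  have hcQ : c ∈ Qb := by
    obtain ⟨u, -, h2⟩ := hc
    rw [h2]
    exact Qb.sum_mem fun b _ => Qb.mul_mem (intCast_mem _ _) (mem_Qb.2 (hβ b))
  have hov : Over Qb (C c⁻¹ * R) := fun s => by
    rw [coeff_C_mul]
    exact Qb.mul_mem (Qb.inv_mem hcQ) (hR.over hβ s)
  obtain ⟨h3, h4⟩ := const_val hG hGa hB tpi_ne hov hx h1
  refine ⟨adjoin_tpi h3, fun hne => ?_⟩
  by_contra hcon
  push Not at hcon
  refine hne (h4 fun s hs => ?_)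
  rw [coeff_C_mul] at hs
  rw [← Nat.not_even_iff_odd]
  exact hcon s (right_ne_zero_of_mul hs)

end concl

/-- `1 / π` is not a polynomial in `π` -/
theorem inv_pi_not_mem : (Real.pi : ℂ)⁻¹ ∉ Algebra.adjoin (algebraicClosure ℚ ℂ) {(Real.pi : ℂ)} := by
  intro h
  rw [Algebra.adjoin_singleton_eq_range_aeval] at h
  obtain ⟨p, hp⟩ := h
  have hpi : (Real.pi : ℂ) ≠ 0 := by exact_mod_cast Real.pi_ne_zero
  have htr : ¬ IsAlgebraic ℚ (Real.pi : ℂ) := by
    have h1 := Pool.Agent.H340R2.LW.transcendental_pi_complex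
    exact h1
  have h2 : IsAlgebraic (algebraicClosure ℚ ℂ) (Real.pi : ℂ) := by
    refine ⟨Polynomial.X * p - 1, ?_, ?_⟩
    · intro h0
      have h3 := congrArg (fun r => r.coeff 0) h0
      simp at h3
    · have h4 : Polynomial.aeval (Real.pi : ℂ) p = (Real.pi : ℂ)⁻¹ := hp
      rw [map_sub, map_mul, Polynomial.aeval_X, h4, map_one, mul_inv_cancel₀ hpi, sub_self]
  have h5 : (Real.pi : ℂ) ∈ Qb := mem_of_root Qb h2
  exact htr (mem_Qb.1 h5)

end Pool.Agent.N113.LP
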